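import Pool.Agent.Run7.h274.Itm.Main

/-! MP_d0d08e_co, Q1. For every graph `H`, clique-width is bounded on the finite graphs that do not
contain `H` as an induced topological minor if and only if `H` is an induced subgraph of the path
`P₄`, of the paw, or of the diamond. -/

namespace Pool.Agent.Results.MP_d0d08e_co.Classification

open Run7.h274.Itm

/-- Clique-width is bounded on the class of `H`-induced-topological-minor-free graphs exactly when
`H` is (isomorphic to) an induced subgraph of `P₄`, the paw or the diamond. -/
theorem result {W : Type} (H : SimpleGraph W) :
    BddItm H ↔ H.IsIndContained P4 ∨ H.IsIndContained Pool.Agent.H175R2.paw ∨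
      H.IsIndContained Pool.Agent.H175R2.diamond :=
  classification H

end Pool.Agent.Results.MP_d0d08e_co.Classification
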